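import Pool.Agent.Results.MP_cb27ba_nt.InitialSegments

/-!
# Bilinear forms with Legendre symbols over the initial segments of two arbitrary sets of integers

The exceptional primes are counted uniformly in the two sets and in the coefficients of the linear form `u a + v b`.
-/

set_option autoImplicit false

namespace Run7.h95.PG

open Finset
open Pool.Agent.Results.MP_cb27ba_nt.InitialSegments (log_small)

open scoped Classical in
/-- the elements of `𝒜` below `p` -/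
noncomputable def seg (𝒜 : Set ℕ) (p : ℕ) : Finset ℕ := (range p).filter (fun n => n ∈ 𝒜)

/-- the bound `p ^ (- τ)` (the trivial bound is `1`) for the bilinear forms `∑ f(a) g(b) (u a + v b | p)` with arbitrary complex
weights `f`, `g` on the sets `𝒜(p)` and `ℬ(p)` of the elements of `𝒜` and `ℬ` below `p`, if these sets have at least `p ^ ε`
elements -/
def Good (ε τ : ℝ) (𝒜 ℬ : Set ℕ) (u v : ℤ) (p : ℕ) : Prop :=
  (p : ℝ) ^ ε ≤ (seg 𝒜 p).card → (p : ℝ) ^ ε ≤ (seg ℬ p).card → ∀ f g : ℕ → ℂ,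
    ‖∑ a ∈ seg 𝒜 p, ∑ b ∈ seg ℬ p, f a * g b * (jacobiSym (u * a + v * b) p : ℂ)‖ ≤
      (p : ℝ) ^ (-τ) * √(((seg 𝒜 p).card : ℝ) * (seg ℬ p).card) *
        (√(∑ a ∈ seg 𝒜 p, ‖f a‖ ^ 2) * √(∑ b ∈ seg ℬ p, ‖g b‖ ^ 2))

lemma mem_seg (𝒜 : Set ℕ) (p n : ℕ) : n ∈ seg 𝒜 p ↔ n < p ∧ n ∈ 𝒜 := by
  classical
  unfold seg
  rw [mem_filter, mem_range]

lemma seg_card (𝒜 : Set ℕ) (p : ℕ) : (seg 𝒜 p).card ≤ p := by
  classical
  unfold seg
  exact (card_filter_le _ _).trans (card_range p).le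

lemma seg_mono (𝒜 : Set ℕ) {p q : ℕ} (h : p ≤ q) : seg 𝒜 p ⊆ seg 𝒜 q := by
  intro n hn
  rw [mem_seg] at hn ⊢
  exact ⟨by omega, hn.2⟩

/-- the multiples -/
def dil (u : ℤ) (A : Finset ℕ) : Finset ℤ := A.image (fun n : ℕ => u * (n : ℤ))

lemma dil_inj {u : ℤ} (hu : u ≠ 0) : Function.Injective (fun n : ℕ => u * (n : ℤ)) := by
  intro a b h
  have h1 : (a : ℤ) = b := mul_left_cancel₀ hu h
  exact_mod_cast h1

lemma sum_dil {M : Type*} [AddCommMonoid M] {u : ℤ} (hu : u ≠ 0) (A : Finset ℕ) (f : ℤ → M) :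
    ∑ a ∈ dil u A, f a = ∑ a ∈ A, f (u * a) :=
  sum_image fun _ _ _ _ h => dil_inj hu h

lemma card_dil {u : ℤ} (hu : u ≠ 0) (A : Finset ℕ) : (dil u A).card = A.card :=
  card_image_of_injective _ (dil_inj hu)

open Pool.Agent.R345.SS in
/-- the bound modulo a good prime -/
lemma forms (Q : ℕ) (κ : ℝ) (A₁ B₁ A B : Finset ℕ) {u v : ℤ} (hu : u ≠ 0) (hv : v ≠ 0) (hκ : 0 ≤ κ) (p : ℕ)
    (hp : p.Prime) (hp2 : p ≠ 2) (hpQ : p ≤ Q) (hg : p ∉ badTr Q (κ ^ 4) (dil u A₁) (dil v B₁)) (hA : A ⊆ A₁) (hB : B ⊆ B₁)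
    (f g : ℕ → ℂ) :
    ‖∑ a ∈ A, ∑ b ∈ B, f a * g b * (jacobiSym (u * a + v * b) p : ℂ)‖ ≤
      κ * √((A₁.card : ℝ) * B₁.card) * (√(∑ a ∈ A, ‖f a‖ ^ 2) * √(∑ b ∈ B, ‖g b‖ ^ 2)) := by
  classical
  have h := good_forms Q κ (dil u A₁) (dil v B₁) hκ p hp hp2 hpQ hg
    (fun a => if (a / u).natAbs ∈ A then f (a / u).natAbs else 0)
    (fun b => if (b / v).natAbs ∈ B then g (b / v).natAbs else 0)
  have e1 : ∀ n : ℕ, (u * (n : ℤ) / u).natAbs = n := fun n => by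
    rw [Int.mul_ediv_cancel_left _ hu, Int.natAbs_natCast]
  have e2 : ∀ n : ℕ, (v * (n : ℤ) / v).natAbs = n := fun n => by
    rw [Int.mul_ediv_cancel_left _ hv, Int.natAbs_natCast]
  rw [sum_dil hu, sum_dil hu, sum_dil hv, card_dil hu, card_dil hv] at h
  simp only [sum_dil hv, e1, e2] at h
  have h1 : ∑ n ∈ A₁, ‖(if n ∈ A then f n else 0)‖ ^ 2 = ∑ n ∈ A, ‖f n‖ ^ 2 := by
    have h4 : ∀ a ∈ A₁, ‖(if a ∈ A then f a else 0)‖ ^ 2 = if a ∈ A then ‖f a‖ ^ 2 else 0 := by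
      intro a _
      split_ifs <;> simp
    rw [sum_congr rfl h4, ← sum_filter, filter_mem_eq_inter, inter_eq_right.2 hA]
  have h2 : ∑ n ∈ B₁, ‖(if n ∈ B then g n else 0)‖ ^ 2 = ∑ n ∈ B, ‖g n‖ ^ 2 := by
    have h4 : ∀ a ∈ B₁, ‖(if a ∈ B then g a else 0)‖ ^ 2 = if a ∈ B then ‖g a‖ ^ 2 else 0 := by
      intro a _
      split_ifs <;> simp
    rw [sum_congr rfl h4, ← sum_filter, filter_mem_eq_inter, inter_eq_right.2 hB]
  have h3 : ∑ a ∈ A₁, ∑ b ∈ B₁, (if a ∈ A then f a else 0) * (if b ∈ B then g b else 0) *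
      (J (u * (a : ℤ) + v * (b : ℤ)) p : ℂ) = ∑ a ∈ A, ∑ b ∈ B, f a * g b * (jacobiSym (u * a + v * b) p : ℂ) := by
    have h6 : ∀ a : ℕ, ∑ b ∈ B₁, (if a ∈ A then f a else 0) * (if b ∈ B then g b else 0) *
        (J (u * (a : ℤ) + v * (b : ℤ)) p : ℂ) =
        if a ∈ A then ∑ b ∈ B, f a * g b * (jacobiSym (u * a + v * b) p : ℂ) else 0 := by
      intro a
      split_ifs with ha
      · have h7 : ∀ b ∈ B₁, f a * (if b ∈ B then g b else 0) * (J (u * (a : ℤ) + v * (b : ℤ)) p : ℂ) =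
            if b ∈ B then f a * g b * (jacobiSym (u * a + v * b) p : ℂ) else 0 := by
          intro b _
          unfold J
          split_ifs <;> simp
        rw [sum_congr rfl h7, ← sum_filter, filter_mem_eq_inter, inter_eq_right.2 hB]
      · simp
    rw [sum_congr rfl fun a _ => h6 a, ← sum_filter, filter_mem_eq_inter, inter_eq_right.2 hA]
  rw [h1, h2, h3] at h
  exact h

open Pool.Agent.R345.SS in
/-- **The exceptional primes.** -/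
theorem count (ε' : ℝ) (hε' : 0 < ε') : ∃ τ : ℝ, 0 < τ ∧ ∃ Q₀ : ℕ, ∀ Q : ℕ, Q₀ ≤ Q → ∀ (𝒜 ℬ : Set ℕ) (u v : ℤ),
    u ≠ 0 → v ≠ 0 → |u| ≤ Q → |v| ≤ Q →
    ({p : ℕ | p.Prime ∧ p ≤ Q ∧ ¬ Good ε' τ 𝒜 ℬ u v p}.ncard : ℝ) ≤ (Q : ℝ) ^ (1 - τ) := by
  classical
  obtain ⟨δ, hδd⟩ : ∃ δ : ℝ, δ = min ε' 1 := ⟨_, rfl⟩
  have hδ : 0 < δ := by rw [hδd]; exact lt_min hε' one_pos
  have hδ1 : δ ≤ 1 := by rw [hδd]; exact min_le_right _ _
  have hδδ' : δ ≤ ε' := by rw [hδd]; exact min_le_left _ _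
  obtain ⟨C, hC, hcount⟩ := bad_count 2
  obtain ⟨c, hc⟩ : ∃ c : ℝ, c = 1 / 44 := ⟨_, rfl⟩
  have hcc : (1 / (2 * (10 * ((2 : ℕ) : ℝ) + 2)) : ℝ) = c := by rw [hc]; norm_num
  rw [hcc] at hcount
  have hc0 : 0 < c := by rw [hc]; norm_num
  obtain ⟨d, hd⟩ : ∃ d : ℝ, d = c * δ / 32 := ⟨_, rfl⟩
  have hd0 : 0 < d := by rw [hd]; positivity
  have hd1 : d ≤ 1 / 32 := by
    rw [hd, hc]
    linarith
  obtain ⟨N1, hN1⟩ := log_small 3 (18 * C) (4 * d) (by positivity)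
  obtain ⟨N2, hN2⟩ := log_small 0 3 (d / 4) (by positivity)
  refine ⟨d / 4, by positivity, N1 + N2 + 16, ?_⟩
  intro Q hQ 𝒜 ℬ u v hu hv hu1 hv1
  have hQ16 : (16 : ℝ) ≤ Q := by exact_mod_cast (by omega : 16 ≤ Q)
  have hQ0 : (0 : ℝ) < Q := by linarith
  have e1 := hN1 Q (by omega)
  have e2 := hN2 Q (by omega)
  rw [pow_zero, mul_one] at e2
  set L : ℝ := Real.log Q with hL
  have hL1 : 1 ≤ L := by
    rw [hL, Real.le_log_iff_exp_le hQ0]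
    linarith [Real.exp_one_lt_d9]
  set κ : ℝ := (Q : ℝ) ^ (-d) with hκ
  have hκ0 : 0 < κ := Real.rpow_pos_of_pos hQ0 _
  have hκ1 : κ ≤ 1 := Real.rpow_le_one_of_one_le_of_nonpos (by linarith) (by linarith)
  -- the chains
  set t : Set ℕ → ℕ → ℕ := fun 𝒞 j => Nat.findGreatest (fun t => (seg 𝒞 t).card < 2 ^ (j + 1)) Q with ht
  set Bj : Set ℕ → ℕ → Finset ℕ := fun 𝒞 j => seg 𝒞 (t 𝒞 j) with hBj
  set E : Finset ℕ := (range (Nat.log 2 Q + 1) ×ˢ range (Nat.log 2 Q + 1)).biUnion (fun j =>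
    if (Q : ℝ) ^ (δ / 2) ≤ (min (Bj 𝒜 j.1).card (Bj ℬ j.2).card : ℕ) then
      badTr Q (κ ^ 4) (dil u (Bj 𝒜 j.1)) (dil v (Bj ℬ j.2)) else ∅) with hE
  -- the number of exceptions
  have hBQ : ∀ (𝒞 : Set ℕ) (j : ℕ), ∀ a ∈ Bj 𝒞 j, a ≤ Q := by
    intro 𝒞 j a ha
    have ha' : a < t 𝒞 j := ((mem_seg 𝒞 (t 𝒞 j) a).1 ha).1
    have : t 𝒞 j ≤ Q := Nat.findGreatest_le _
    omega
  have hdil : ∀ (w : ℤ) (𝒞 : Set ℕ) (j : ℕ), |w| ≤ Q → dil w (Bj 𝒞 j) ⊆ Icc (-((Q : ℤ) ^ 2)) ((Q : ℤ) ^ 2) := by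
    intro w 𝒞 j hw a ha
    unfold dil at ha
    rw [mem_image] at ha
    obtain ⟨n, hn, rfl⟩ := ha
    have h1 := hBQ 𝒞 j n hn
    rw [mem_Icc, ← abs_le, abs_mul, sq, Nat.abs_cast]
    exact mul_le_mul hw (by exact_mod_cast h1) (by positivity) (by positivity)
  have hEj : ∀ j : ℕ × ℕ, (((if (Q : ℝ) ^ (δ / 2) ≤ (min (Bj 𝒜 j.1).card (Bj ℬ j.2).card : ℕ) then
      badTr Q (κ ^ 4) (dil u (Bj 𝒜 j.1)) (dil v (Bj ℬ j.2)) else ∅ : Finset ℕ).card : ℕ) : ℝ) ≤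
      C * L * (Q : ℝ) ^ (1 - 8 * d) := by
    intro j
    split_ifs with hj
    · obtain ⟨m, hm⟩ : ∃ m : ℕ, m = min (Bj 𝒜 j.1).card (Bj ℬ j.2).card := ⟨_, rfl⟩
      rw [← hm] at hj
      have hm1 : (1 : ℝ) ≤ m := (Real.one_le_rpow (by linarith) (by positivity)).trans hj
      have h1 := hcount Q (dil u (Bj 𝒜 j.1)) (dil v (Bj ℬ j.2)) m (κ ^ 4) (by omega) (hdil u 𝒜 j.1 hu1) (hdil v ℬ j.2 hv1)
        (by exact_mod_cast hm1) (by rw [card_dil hu, hm]; exact min_le_left _ _) (by rw [card_dil hv, hm]; exact min_le_right _ _)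
        (by positivity) (pow_le_one₀ hκ0.le hκ1)
      set N : ℝ := ((badTr Q (κ ^ 4) (dil u (Bj 𝒜 j.1)) (dil v (Bj ℬ j.2))).card : ℝ) with hN
      have g1 : (κ ^ 4) ^ 2 = (Q : ℝ) ^ (-(8 * d)) := by
        rw [← pow_mul, hκ, ← Real.rpow_natCast, ← Real.rpow_mul hQ0.le]
        congr 1
        push_cast
        ring
      have g2 : (L ^ 4 / (m : ℝ)) ^ c ≤ L * (Q : ℝ) ^ (-(16 * d)) := by
        have h2 : L ^ 4 / (m : ℝ) ≤ L ^ 4 * (Q : ℝ) ^ (-(δ / 2)) := by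
          rw [Real.rpow_neg hQ0.le, ← div_eq_mul_inv]
          exact div_le_div_of_nonneg_left (by positivity) (by positivity) hj
        refine (Real.rpow_le_rpow (by positivity) h2 hc0.le).trans ?_
        rw [Real.mul_rpow (by positivity) (by positivity), ← Real.rpow_mul hQ0.le]
        have h3 : (L ^ 4) ^ c ≤ L := by
          rw [← Real.rpow_natCast, ← Real.rpow_mul (by linarith)]
          calc L ^ (((4 : ℕ) : ℝ) * c) ≤ L ^ (1 : ℝ) := by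
                apply Real.rpow_le_rpow_of_exponent_le hL1
                rw [hc]
                norm_num
            _ = L := Real.rpow_one _
        have h4 : -(δ / 2) * c = -(16 * d) := by rw [hd]; ring
        rw [h4]
        exact mul_le_mul_of_nonneg_right h3 (by positivity)
      rw [g1] at h1
      have g3 : N = (Q : ℝ) ^ (8 * d) * ((Q : ℝ) ^ (-(8 * d)) * N) := by
        rw [← mul_assoc, ← Real.rpow_add hQ0]
        simp
      rw [g3]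
      calc (Q : ℝ) ^ (8 * d) * ((Q : ℝ) ^ (-(8 * d)) * N) ≤ (Q : ℝ) ^ (8 * d) * (C * Q * (L ^ 4 / (m : ℝ)) ^ c) :=
            mul_le_mul_of_nonneg_left h1 (by positivity)
        _ ≤ (Q : ℝ) ^ (8 * d) * (C * Q * (L * (Q : ℝ) ^ (-(16 * d)))) := by gcongr
        _ = C * L * ((Q : ℝ) ^ (8 * d) * (Q : ℝ) ^ (1 : ℝ) * (Q : ℝ) ^ (-(16 * d))) := by rw [Real.rpow_one]; ring
        _ = _ := by
            rw [← Real.rpow_add hQ0, ← Real.rpow_add hQ0]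
            congr 2
            ring
    · simp only [card_empty, Nat.cast_zero]
      positivity
  have hEc : (E.card : ℝ) ≤ (1 / 2) * (Q : ℝ) ^ (1 - d / 4) := by
    have h1 : (E.card : ℝ) ≤ ∑ j ∈ range (Nat.log 2 Q + 1) ×ˢ range (Nat.log 2 Q + 1), C * L * (Q : ℝ) ^ (1 - 8 * d) := by
      refine le_trans ?_ (sum_le_sum fun j _ => hEj j)
      rw [hE]
      exact_mod_cast card_biUnion_le
    rw [sum_const, card_product, card_range, nsmul_eq_mul] at h1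
    have h2 : ((Nat.log 2 Q + 1 : ℕ) : ℝ) ≤ 3 * L := by
      have h3 : 2 ^ Nat.log 2 Q ≤ Q := Nat.pow_log_le_self 2 (by omega)
      have h4 : (2 : ℝ) ^ Nat.log 2 Q ≤ Q := by exact_mod_cast h3
      have h5 := Real.log_le_log (by positivity) h4
      rw [Real.log_pow] at h5
      have h6 := Real.log_two_gt_d9
      have h7 : (0 : ℝ) ≤ (Nat.log 2 Q : ℝ) := Nat.cast_nonneg _
      push_cast
      nlinarith
    have h20 : (0 : ℝ) ≤ ((Nat.log 2 Q + 1 : ℕ) : ℝ) := Nat.cast_nonneg _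
    refine h1.trans ?_
    calc (((Nat.log 2 Q + 1) * (Nat.log 2 Q + 1) : ℕ) : ℝ) * (C * L * (Q : ℝ) ^ (1 - 8 * d)) =
        (((Nat.log 2 Q + 1 : ℕ) : ℝ) * ((Nat.log 2 Q + 1 : ℕ) : ℝ)) * (C * L * (Q : ℝ) ^ (1 - 8 * d)) := by push_cast; ring
      _ ≤ ((3 * L) * (3 * L)) * (C * L * (Q : ℝ) ^ (1 - 8 * d)) :=
          mul_le_mul_of_nonneg_right (mul_le_mul h2 h2 h20 (by positivity)) (by positivity)
      _ = (1 / 2) * (18 * C * L ^ 3) * (Q : ℝ) ^ (1 - 8 * d) := by ring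
      _ ≤ (1 / 2) * (Q : ℝ) ^ (4 * d) * (Q : ℝ) ^ (1 - 8 * d) := by gcongr
      _ = (1 / 2) * (Q : ℝ) ^ (1 - 4 * d) := by
          rw [mul_assoc, ← Real.rpow_add hQ0]
          congr 2
          ring
      _ ≤ (1 / 2) * (Q : ℝ) ^ (1 - d / 4) := by
          refine mul_le_mul_of_nonneg_left ?_ (by norm_num)
          exact Real.rpow_le_rpow_of_exponent_le (by linarith) (by linarith)
  -- the small primes
  set R : ℕ := ⌊√(Q : ℝ)⌋₊ with hR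
  have hRc : (((range (R + 1)).card : ℕ) : ℝ) ≤ (1 / 2) * (Q : ℝ) ^ (1 - d / 4) := by
    rw [card_range]
    have h1 : (R : ℝ) ≤ √(Q : ℝ) := Nat.floor_le (Real.sqrt_nonneg _)
    have h2 : (4 : ℝ) ≤ √(Q : ℝ) := by
      apply Real.le_sqrt_of_sq_le
      linarith
    have h3 : √(Q : ℝ) * (5 / 4) ≤ (1 / 2) * (Q : ℝ) ^ (1 - d / 4) := by
      have h4 : (3 : ℝ) * (Q : ℝ) ^ (1 / 2 : ℝ) ≤ (Q : ℝ) ^ (1 - d / 4) := by
        calc (3 : ℝ) * (Q : ℝ) ^ (1 / 2 : ℝ) ≤ (Q : ℝ) ^ (d / 4) * (Q : ℝ) ^ (1 / 2 : ℝ) :=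
              mul_le_mul_of_nonneg_right e2 (by positivity)
          _ = (Q : ℝ) ^ (d / 4 + 1 / 2) := by rw [← Real.rpow_add hQ0]
          _ ≤ _ := Real.rpow_le_rpow_of_exponent_le (by linarith) (by linarith)
      rw [← Real.sqrt_eq_rpow] at h4
      linarith
    push_cast
    linarith
  -- the cover
  have hcov : {p : ℕ | p.Prime ∧ p ≤ Q ∧ ¬ Good ε' (d / 4) 𝒜 ℬ u v p} ⊆ ((range (R + 1) ∪ E : Finset ℕ) : Set ℕ) := by
    rintro p ⟨hp, hpQ, hbad⟩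
    rw [mem_coe, mem_union, mem_range]
    by_cases hpR : p < R + 1
    · left; exact hpR
    right
    push Not at hpR
    have hpr : √(Q : ℝ) ≤ p := by
      have h1 : √(Q : ℝ) < R + 1 := Nat.lt_floor_add_one _
      have h2 : ((R + 1 : ℕ) : ℝ) ≤ p := by exact_mod_cast hpR
      push_cast at h2
      linarith
    have hs4 : (4 : ℝ) ≤ √(Q : ℝ) := by
      apply Real.le_sqrt_of_sq_le
      linarith
    have hp1 : (1 : ℝ) ≤ p := by linarith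
    have hp2 : p ≠ 2 := by
      intro h2
      rw [h2] at hpr
      norm_num at hpr
      linarith
    -- the place in a chain
    have hplace : ∀ 𝒞 : Set ℕ, (p : ℝ) ^ ε' ≤ (seg 𝒞 p).card → ∃ j : ℕ, j ∈ range (Nat.log 2 Q + 1) ∧ seg 𝒞 p ⊆ Bj 𝒞 j ∧
        ((Bj 𝒞 j).card : ℝ) ≤ 2 * (seg 𝒞 p).card ∧ (Q : ℝ) ^ (δ / 2) ≤ (Bj 𝒞 j).card := by
      intro 𝒞 hseg
      set P : ℕ := (seg 𝒞 p).card with hP
      have hPδ : (Q : ℝ) ^ (δ / 2) ≤ P := by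
        have h1 : (p : ℝ) ^ δ ≤ (p : ℝ) ^ ε' := Real.rpow_le_rpow_of_exponent_le hp1 hδδ'
        have h2 : √(Q : ℝ) ^ δ ≤ (p : ℝ) ^ δ := Real.rpow_le_rpow (Real.sqrt_nonneg _) hpr hδ.le
        have h3 : √(Q : ℝ) ^ δ = (Q : ℝ) ^ (δ / 2) := by
          rw [Real.sqrt_eq_rpow, ← Real.rpow_mul hQ0.le]
          congr 1
          ring
        rw [← h3]
        exact h2.trans (h1.trans hseg)
      have hPpos : 0 < P := by
        have h1 : (1 : ℝ) ≤ (Q : ℝ) ^ (δ / 2) := Real.one_le_rpow (by linarith) (by positivity)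
        have h2 : (1 : ℝ) ≤ P := h1.trans hPδ
        exact_mod_cast h2
      have hPp : P ≤ p := by
        rw [hP]
        exact seg_card 𝒞 p
      obtain ⟨j, hj⟩ : ∃ j, j = Nat.log 2 P := ⟨_, rfl⟩
      have hj1 : 2 ^ j ≤ P := by rw [hj]; exact Nat.pow_log_le_self 2 hPpos.ne'
      have hj2 : P < 2 ^ (j + 1) := by rw [hj]; exact Nat.lt_pow_succ_log_self (by norm_num) _
      have htj : p ≤ t 𝒞 j := Nat.le_findGreatest hpQ hj2
      have hBjc : (Bj 𝒞 j).card < 2 ^ (j + 1) := by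
        have h0 : (seg 𝒞 0).card < 2 ^ (j + 1) := by
          have h1 := seg_card 𝒞 0
          have h2 : 0 < 2 ^ (j + 1) := by positivity
          omega
        exact Nat.findGreatest_spec (P := fun t => (seg 𝒞 t).card < 2 ^ (j + 1)) (m := 0) (Nat.zero_le _) h0
      have hsub : seg 𝒞 p ⊆ Bj 𝒞 j := seg_mono 𝒞 htj
      have hPB : P ≤ (Bj 𝒞 j).card := card_le_card hsub
      refine ⟨j, ?_, hsub, ?_, hPδ.trans (by exact_mod_cast hPB)⟩
      · rw [mem_range]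
        have : j ≤ Nat.log 2 Q := by rw [hj]; exact Nat.log_mono_right (hPp.trans hpQ)
        omega
      · have h1 : (Bj 𝒞 j).card ≤ 2 * P := by
          rw [pow_succ] at hBjc
          omega
        exact_mod_cast h1
    by_contra hpE
    apply hbad
    intro hsA hsB f g
    obtain ⟨j, hj1, hj2, hj3, hj4⟩ := hplace 𝒜 hsA
    obtain ⟨l, hl1, hl2, hl3, hl4⟩ := hplace ℬ hsB
    have hcond : (Q : ℝ) ^ (δ / 2) ≤ (min (Bj 𝒜 j).card (Bj ℬ l).card : ℕ) := by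
      rw [Nat.cast_min]
      exact le_min hj4 hl4
    have hgood : p ∉ badTr Q (κ ^ 4) (dil u (Bj 𝒜 j)) (dil v (Bj ℬ l)) := by
      intro hb
      apply hpE
      rw [hE, mem_biUnion]
      exact ⟨(j, l), mem_product.2 ⟨hj1, hl1⟩, by rw [if_pos hcond]; exact hb⟩
    have hb := forms Q κ (Bj 𝒜 j) (Bj ℬ l) (seg 𝒜 p) (seg ℬ p) hu hv hκ0.le p hp hp2 hpQ hgood hj2 hl2 f g
    refine hb.trans ?_
    apply mul_le_mul_of_nonneg_right _ (by positivity)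
    have h1 : √(((Bj 𝒜 j).card : ℝ) * (Bj ℬ l).card) ≤ 2 * √(((seg 𝒜 p).card : ℝ) * (seg ℬ p).card) := by
      have h2 : (2 : ℝ) * √(((seg 𝒜 p).card : ℝ) * (seg ℬ p).card) = √(4 * (((seg 𝒜 p).card : ℝ) * (seg ℬ p).card)) := by
        rw [Real.sqrt_mul (by norm_num)]
        norm_num
      rw [h2]
      apply Real.sqrt_le_sqrt
      calc ((Bj 𝒜 j).card : ℝ) * (Bj ℬ l).card ≤ (2 * (seg 𝒜 p).card) * (2 * (seg ℬ p).card) :=
            mul_le_mul hj3 hl3 (Nat.cast_nonneg _) (by positivity)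
        _ = _ := by ring
    have h2 : κ * 2 ≤ (p : ℝ) ^ (-(d / 4)) := by
      have h3 : (Q : ℝ) ^ (-(d / 4)) ≤ (p : ℝ) ^ (-(d / 4)) :=
        Real.rpow_le_rpow_of_nonpos (by linarith) (by exact_mod_cast hpQ) (by linarith)
      refine le_trans ?_ h3
      have h4 : (3 : ℝ) ≤ (Q : ℝ) ^ (3 * d / 4) := by
        refine e2.trans (Real.rpow_le_rpow_of_exponent_le (by linarith) (by linarith))
      have h5 : (Q : ℝ) ^ (-(d / 4)) = (Q : ℝ) ^ (-d) * (Q : ℝ) ^ (3 * d / 4) := by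
        rw [← Real.rpow_add hQ0]
        congr 1
        ring
      rw [h5]
      exact mul_le_mul_of_nonneg_left (by linarith) hκ0.le
    calc κ * √(((Bj 𝒜 j).card : ℝ) * (Bj ℬ l).card) ≤ κ * (2 * √(((seg 𝒜 p).card : ℝ) * (seg ℬ p).card)) :=
          mul_le_mul_of_nonneg_left h1 hκ0.le
      _ = (κ * 2) * √(((seg 𝒜 p).card : ℝ) * (seg ℬ p).card) := by ring
      _ ≤ _ := mul_le_mul_of_nonneg_right h2 (Real.sqrt_nonneg _)
  have hfin := Set.ncard_le_ncard hcov (finite_toSet _)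
  rw [Set.ncard_coe_finset] at hfin
  calc ({p : ℕ | p.Prime ∧ p ≤ Q ∧ ¬ Good ε' (d / 4) 𝒜 ℬ u v p}.ncard : ℝ)
      ≤ ((range (R + 1) ∪ E).card : ℝ) := by exact_mod_cast hfin
    _ ≤ ((range (R + 1)).card : ℝ) + E.card := by exact_mod_cast card_union_le _ _
    _ ≤ (1 / 2) * (Q : ℝ) ^ (1 - d / 4) + (1 / 2) * (Q : ℝ) ^ (1 - d / 4) := add_le_add hRc hEc
    _ = _ := by ring

/-- the bound for the bilinear forms bounds the sums over subsets -/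
lemma subsets {ε τ : ℝ} {𝒜 ℬ : Set ℕ} {u v : ℤ} {p : ℕ} (h : Good ε τ 𝒜 ℬ u v p)
    (h1 : (p : ℝ) ^ ε ≤ (seg 𝒜 p).card) (h2 : (p : ℝ) ^ ε ≤ (seg ℬ p).card) {A B : Finset ℕ} (hA : A ⊆ seg 𝒜 p)
    (hB : B ⊆ seg ℬ p) :
    |∑ a ∈ A, ∑ b ∈ B, (jacobiSym (u * a + v * b) p : ℝ)| ≤
      (p : ℝ) ^ (-τ) * √(((seg 𝒜 p).card : ℝ) * (seg ℬ p).card) * √((A.card : ℝ) * B.card) := by
  classical
  have h3 := h h1 h2 (fun a => if a ∈ A then 1 else 0) (fun b => if b ∈ B then 1 else 0)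
  have h4 : ∀ (C D : Finset ℕ), C ⊆ D → ∑ n ∈ D, ‖(if n ∈ C then (1 : ℂ) else 0)‖ ^ 2 = C.card := by
    intro C D hCD
    have h4 : ∀ a ∈ D, ‖(if a ∈ C then (1 : ℂ) else 0)‖ ^ 2 = if a ∈ C then (1 : ℝ) else 0 := by
      intro a _
      split_ifs <;> simp
    rw [sum_congr rfl h4, sum_boole, filter_mem_eq_inter, inter_eq_right.2 hCD]
  rw [h4 A _ hA, h4 B _ hB, ← Real.sqrt_mul (Nat.cast_nonneg _)] at h3
  have h5 : ∑ a ∈ seg 𝒜 p, ∑ b ∈ seg ℬ p, (if a ∈ A then (1 : ℂ) else 0) * (if b ∈ B then (1 : ℂ) else 0) *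
      (jacobiSym (u * a + v * b) p : ℂ) = ((∑ a ∈ A, ∑ b ∈ B, (jacobiSym (u * a + v * b) p : ℝ) : ℝ) : ℂ) := by
    have h6 : ∀ a : ℕ, ∑ b ∈ seg ℬ p, (if a ∈ A then (1 : ℂ) else 0) * (if b ∈ B then (1 : ℂ) else 0) *
        (jacobiSym (u * a + v * b) p : ℂ) = if a ∈ A then ∑ b ∈ B, (jacobiSym (u * a + v * b) p : ℂ) else 0 := by
      intro a
      split_ifs with ha
      · have h7 : ∀ b ∈ seg ℬ p, (1 : ℂ) * (if b ∈ B then (1 : ℂ) else 0) * (jacobiSym (u * a + v * b) p : ℂ) =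
            if b ∈ B then (jacobiSym (u * a + v * b) p : ℂ) else 0 := by
          intro b _
          split_ifs <;> simp
        rw [sum_congr rfl h7, ← sum_filter, filter_mem_eq_inter, inter_eq_right.2 hB]
      · simp
    rw [sum_congr rfl fun a _ => h6 a, ← sum_filter, filter_mem_eq_inter, inter_eq_right.2 hA]
    push_cast
    rfl
  rw [h5, Complex.norm_real, Real.norm_eq_abs] at h3
  exact h3

end Run7.h95.PG
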